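import Pool.Agent.Helper33.DZ.Stmts

namespace Pool.Agent.Helper33.DZ

theorem st_ANTI : ST_ANTI := by
  intro w c hc
  have h1 : ∀ a, a ≤ w → c (w - a) = -c a := by
    intro a ha
    have e1 := hc.rel a ha
    have e2 := hc.rel (w - a) (Nat.sub_le _ _)
    have e3 : w - (w - a) = a := by omega
    rw [e3] at e2
    rw [e1, e2]
    ring
  have h2 : hh w c w = 0 := by
    unfold hh
    refine Finset.sum_eq_zero fun n hn => ?_
    have hn' : n ≤ w := by
      have := Finset.mem_range.1 hn
      omega
    rcases lt_or_eq_of_le hn' with h | h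
    · rw [Nat.choose_eq_zero_of_lt h]
      simp
    · rw [hc.big n h.ge, mul_zero]
  refine ⟨h1, ?_, h2⟩
  have e := hc.rel 0 (Nat.zero_le _)
  rw [hc.zero, Nat.sub_zero, h2, sub_zero] at e
  exact e.symm

end Pool.Agent.Helper33.DZ
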