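import Pool.Agent.Helper33.DZ.Stmts

open Complex

namespace Pool.Agent.Helper33.DZ

theorem zt_even_aux (k : ℕ) (hk : 1 ≤ k) :
    ∃ a : ℚ, 0 < a ∧ zt (2 * k) = (a : ℝ) * Real.pi ^ (2 * k) := by
  have h := hasSum_zeta_nat (k := k) (by omega)
  have h1 : zt (2 * k) = (-1 : ℝ) ^ (k + 1) * (2 : ℝ) ^ (2 * k - 1) * Real.pi ^ (2 * k) *
      bernoulli (2 * k) / (2 * k).factorial := by
    rw [← h.tsum_eq, h.summable.tsum_eq_zero_add]
    have : (1 : ℝ) / ((0 : ℕ) : ℝ) ^ (2 * k) = 0 := by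
      rw [Nat.cast_zero, zero_pow (by omega), div_zero]
    rw [this, zero_add]
    rfl
  have hpos : 0 < zt (2 * k) := by
    have hs : Summable (fun n : ℕ => (1 : ℝ) / (((n + 1 : ℕ) : ℝ) ^ (2 * k))) :=
      (summable_nat_add_iff 1).2 h.summable
    exact hs.tsum_pos (fun n => by positivity) 0 (by positivity)
  have hpi : 0 < Real.pi ^ (2 * k) := by positivity
  refine ⟨(-1 : ℚ) ^ (k + 1) * (2 : ℚ) ^ (2 * k - 1) * bernoulli (2 * k) / (2 * k).factorial,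
    ?_, ?_⟩
  · have : (0 : ℝ) < (((-1 : ℚ) ^ (k + 1) * (2 : ℚ) ^ (2 * k - 1) * bernoulli (2 * k) /
        (2 * k).factorial : ℚ) : ℝ) * Real.pi ^ (2 * k) := by
      push_cast
      calc (0 : ℝ) < zt (2 * k) := hpos
        _ = _ := by rw [h1]; ring
    exact_mod_cast (pos_iff_pos_of_mul_pos this).2 hpi
  · rw [h1]
    push_cast
    ring

theorem st_EVEN : ST_EVEN := by
  intro i j hi hj
  obtain ⟨a, ha, ha'⟩ := zt_even_aux i hi
  obtain ⟨b, hb, hb'⟩ := zt_even_aux j hj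
  obtain ⟨c, hc, hc'⟩ := zt_even_aux (i + j) (by omega)
  refine ⟨a * b / c, ?_⟩
  have h2 : 2 * i + 2 * j = 2 * (i + j) := by ring
  rw [h2, hc', ha', hb']
  have hc0 : (c : ℝ) ≠ 0 := by exact_mod_cast hc.ne'
  push_cast
  field_simp
  ring

end Pool.Agent.Helper33.DZ
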