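import Pool.Agent.Helper33.DZ.Stmts

open MeasureTheory Set

namespace Pool.Agent.Helper33.DZ

theorem st_INTG : ST_INTG := by
  intro g hg h0 n
  have hd : DifferentiableOn ℂ (dslope g 0) (Metric.ball 0 1) :=
    (Complex.differentiableOn_dslope (Metric.ball_mem_nhds 0 one_pos)).2 hg
  set ρ : ℝ := Real.exp (-(2 * Real.pi)) with hρ
  have hρ1 : ρ < 1 := by
    rw [hρ, Real.exp_lt_one_iff]
    have := Real.pi_pos
    linarith
  have hsub : Metric.closedBall (0 : ℂ) ρ ⊆ Metric.ball 0 1 := Metric.closedBall_subset_ball hρ1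
  obtain ⟨C, hC⟩ := (isCompact_closedBall (0 : ℂ) ρ).exists_bound_of_continuousOn
    (hd.continuousOn.mono hsub)
  have hq : ∀ t ∈ Ioi (1 : ℝ), ((Real.exp (-(2 * Real.pi * t)) : ℝ) : ℂ) ∈
      Metric.closedBall (0 : ℂ) ρ := by
    intro t ht
    rw [mem_closedBall_zero_iff, Complex.norm_real, Real.norm_eq_abs, abs_of_pos (Real.exp_pos _),
      hρ]
    apply Real.exp_le_exp.2
    have := Real.pi_pos
    have h1 : (1 : ℝ) < t := ht
    nlinarith
  have hbd : ∀ t ∈ Ioi (1 : ℝ), ‖g ((Real.exp (-(2 * Real.pi * t)) : ℝ) : ℂ) * (t : ℂ) ^ n‖ ≤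
      C * (t ^ n * Real.exp (-(2 * Real.pi) * t)) := by
    intro t ht
    have h1 : (1 : ℝ) < t := ht
    have hs := sub_smul_dslope g 0 ((Real.exp (-(2 * Real.pi * t)) : ℝ) : ℂ)
    rw [sub_zero, smul_eq_mul, h0, sub_zero] at hs
    rw [← hs, norm_mul, norm_mul, norm_pow, Complex.norm_real, Complex.norm_real, Real.norm_eq_abs,
      Real.norm_eq_abs, abs_of_pos (Real.exp_pos _), abs_of_pos (by linarith : (0 : ℝ) < t)]
    have h2 := hC _ (hq t ht)
    have h3 : -(2 * Real.pi * t) = -(2 * Real.pi) * t := by ring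
    rw [h3] at h2 ⊢
    have h4 : 0 < Real.exp (-(2 * Real.pi) * t) := Real.exp_pos _
    have h5 : 0 < t ^ n := by positivity
    calc Real.exp (-(2 * Real.pi) * t) *
          ‖dslope g 0 ((Real.exp (-(2 * Real.pi) * t) : ℝ) : ℂ)‖ * t ^ n
        ≤ Real.exp (-(2 * Real.pi) * t) * C * t ^ n := by gcongr
      _ = _ := by ring
  have hint : IntegrableOn (fun t : ℝ => C * (t ^ n * Real.exp (-(2 * Real.pi) * t)))
      (Ioi (1 : ℝ)) := by
    have h6 := integrableOn_rpow_mul_exp_neg_mul_rpow (p := 1) (s := (n : ℝ))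
      (b := 2 * Real.pi) (by have : (0 : ℝ) ≤ (n : ℝ) := Nat.cast_nonneg n
                             linarith) one_pos (by positivity)
    have h7 : IntegrableOn (fun t : ℝ => t ^ n * Real.exp (-(2 * Real.pi) * t)) (Ioi (1 : ℝ)) := by
      refine (h6.mono_set (Ioi_subset_Ioi zero_le_one)).congr_fun ?_ measurableSet_Ioi
      intro t _
      simp only [Real.rpow_natCast, Real.rpow_one]
    exact h7.const_mul C
  have hcont : ContinuousOn (fun t : ℝ => g ((Real.exp (-(2 * Real.pi * t)) : ℝ) : ℂ) * (t : ℂ) ^ n)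
      (Ioi (1 : ℝ)) := by
    refine ContinuousOn.mul ?_ (by fun_prop)
    refine (hg.continuousOn).comp (by fun_prop) ?_
    intro t ht
    exact hsub (hq t ht)
  refine Integrable.mono' hint (hcont.aestronglyMeasurable measurableSet_Ioi) ?_
  exact (ae_restrict_iff' measurableSet_Ioi).2 (Filter.Eventually.of_forall hbd)

end Pool.Agent.Helper33.DZ
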