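import Pool.Agent.Helper33.DZ.Stmts

namespace Pool.Agent.Helper33.DZ

theorem st_PRIM : ST_PRIM := by
  intro g hg h0
  have hd : DifferentiableOn ℂ (dslope g 0) (Metric.ball 0 1) :=
    (Complex.differentiableOn_dslope (Metric.ball_mem_nhds 0 one_pos)).2 hg
  obtain ⟨P, hP0, hP⟩ := hd.isExactOn_ball.with_val_at 0 0
  refine ⟨P, fun q hq => (hP q hq).differentiableAt.differentiableWithinAt, hP0, ?_⟩
  intro q hq
  rw [(hP q hq).deriv]
  have := sub_smul_dslope g 0 q
  rw [sub_zero, smul_eq_mul, h0, sub_zero] at this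
  exact this

end Pool.Agent.Helper33.DZ
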