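import Pool.Agent.Helper33.DZ.Stmts

namespace Pool.Agent.Helper33.DZ

theorem exists_retract : ∃ f : ℝ →ₗ[ℚ] ℚ, f 1 = 1 := by
  obtain ⟨f, hf⟩ := LinearMap.exists_leftInverse_of_injective
    (LinearMap.toSpanSingleton ℚ ℝ (1 : ℝ)) (by
      rw [LinearMap.ker_eq_bot]
      intro a b hab
      simpa using hab)
  refine ⟨f, ?_⟩
  have := LinearMap.congr_fun hf (1 : ℚ)
  simpa using this

theorem st_RAT : ST_RAT := by
  intro w N n₀ hx
  obtain ⟨c, hc, hc1, hc2⟩ := hx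
  obtain ⟨f, hf⟩ := exists_retract
  have hnat : ∀ (n : ℕ) (x : ℝ), f ((n : ℝ) * x) = (n : ℚ) * f x := by
    intro n x
    rw [← nsmul_eq_mul, map_nsmul, nsmul_eq_mul]
  have hhf : ∀ a, f (hh w c a) = hh w (fun n => f (c n)) a := by
    intro a
    unfold hh
    rw [map_sum]
    exact Finset.sum_congr rfl fun n _ => hnat _ _
  refine ⟨fun n => f (c n), ⟨?_, ?_, ?_, ?_⟩, ?_, ?_⟩
  · intro n hn
    show f (c n) = 0
    rw [hc.odd n hn, map_zero]
  · show f (c 0) = 0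
    rw [hc.zero, map_zero]
  · intro n hn
    show f (c n) = 0
    rw [hc.big n hn, map_zero]
  · intro a ha
    show f (c a) = _
    rw [← hhf, ← hhf, ← map_sub, ← hc.rel a ha]
  · show f (c n₀) = 1
    rw [hc1, hf]
  · intro n hn hne
    show f (c n) = 0
    rw [hc2 n hn hne, map_zero]

end Pool.Agent.Helper33.DZ
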